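import Pool.Agent.Helper84_KACR.GLB
import Pool.Agent.Helper25_KACR.JET
import Pool.Agent.Helper52_KACR.BCL
import Pool.Agent.Helper84_KACR.BCO
import Pool.Agent.Helper52_KACR.PRE
import Pool.Agent.Helper34_KACR.LOC
import Pool.Agent.Helper31_KACR.NEA
import Pool.Agent.Helper52_KACR.RGP
import Pool.Agent.Helper51_KACR.CRP

/-!
Block RECON: all rows together.
-/

namespace Pool.Agent.KACR.H26

open Pool.Agent.KACR

theorem jetAll : JetStmt := H25.jet H52.bcl H84.bco H52.pre H34.loc

theorem rgpAll : RgpStmt := H52.rgp H31.nea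

theorem crpAll : CrpStmt := H51.crp H31.nea rgpAll

/-- RECON, without hypotheses -/
theorem recon : ReconStmt := H84.glb jetAll rgpAll crpAll

end Pool.Agent.KACR.H26
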